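import Pool.Agent.Q253.Cov.APd
import Pool.Agent.Q253.Cov.Pig
import Pool.Agent.Q253.Thin.Int

/-!
# Sifted sets of integers in intervals: the count and narrow progressions, uniformly
-/

set_option autoImplicit false

namespace Pool.Agent.Q117.CB

open Finset Filter
open Pool.Agent.Y843.HS (Pr VV Pr_mem Pr_prime)
open Pool.Agent.Q253.Thin (SysZ VZ_low VZ_nonneg IS int_lower)
open Pool.Agent.Q253.Cov (ap_dense pigeon)

theorem master (r : ℕ) (hr : 1 ≤ r) : ∃ t : ℕ, 1 ≤ t ∧ ∃ c : ℝ, 0 < c ∧ ∀ (L : ℕ) (η : ℝ), 0 < η → ∃ D H₀ : ℕ,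
    ∀ H : ℕ, H₀ ≤ H → ∀ Z : ℕ → Finset ℕ, SysZ r Z → ∀ A : ℕ,
      c * (H * VV Z 0 H) ≤ ((IS t H A (A + H) Z).card : ℝ) ∧ c / Real.log H ^ r ≤ VV Z 0 H ∧
      ∀ S ⊆ IS t H A (A + H) Z, η * ((IS t H A (A + H) Z).card : ℝ) ≤ S.card →
        ∃ m d : ℕ, 1 ≤ d ∧ (d : ℝ) ≤ Real.log H ^ D ∧ ∀ j < L, m + j * d ∈ S := by
  classical
  obtain ⟨t, ht, c1, hc1, H1⟩ := int_lower r hr
  obtain ⟨cV, hcV, hV⟩ := VZ_low r hr
  obtain ⟨X1, H1⟩ := H1 1 one_pos
  refine ⟨t, ht, min c1 cV, by positivity, fun L η hη => ?_⟩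
  have ht0 : (0 : ℝ) < t := by exact_mod_cast ht
  have ht1 : (1 : ℝ) ≤ t := by exact_mod_cast ht
  obtain ⟨D, X2, H2⟩ := ap_dense L r (1 / t) (η * min c1 cV) (by positivity) (by rw [div_le_one ht0]; exact ht1) (by positivity)
  refine ⟨D, max (max X1 X2) 2, ?_⟩
  intro H hH Z hZ A
  have hHX1 : X1 ≤ H := ((le_max_left _ _).trans (le_max_left _ _)).trans hH
  have hHX2 : X2 ≤ H := ((le_max_right _ _).trans (le_max_left _ _)).trans hH
  have hH2 : 2 ≤ H := (le_max_right _ _).trans hH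
  have hlH : 0 < Real.log H := Real.log_pos (by exact_mod_cast (by omega : 1 < H))
  have hVn := VZ_nonneg hZ 0 H
  have h1 := H1 H hHX1 Z hZ A (A + H) (by push_cast; linarith)
  have e1 : (((A + H : ℕ) : ℝ)) - A = H := by push_cast; ring
  rw [e1] at h1
  have h2 : min c1 cV * (H * VV Z 0 H) ≤ ((IS t H A (A + H) Z).card : ℝ) := by
    refine le_trans ?_ h1
    apply mul_le_mul_of_nonneg_right (min_le_left _ _) (by positivity)
  refine ⟨h2, ?_, ?_⟩
  · refine le_trans ?_ (hV H hH2 Z hZ)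
    exact div_le_div_of_nonneg_right (min_le_right _ _) (by positivity)
  · intro S hS hSc
    refine H2 H hHX2 Z hZ A S ?_ ?_ ?_
    · intro n hn
      have := hS hn
      unfold IS at this
      exact (mem_filter.1 this).1
    · intro n hn p hp hpH
      have := hS hn
      unfold IS at this
      exact (mem_filter.1 this).2 p hp hpH
    · refine le_trans ?_ hSc
      calc η * min c1 cV * (H * VV Z 0 H) = η * (min c1 cV * (H * VV Z 0 H)) := by ring
        _ ≤ _ := mul_le_mul_of_nonneg_left h2 hη.le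

/-- many large prime factors make a number large -/
theorem list_len_real (z : ℝ) (hz : 1 ≤ z) (l : List ℕ) (h : ∀ q ∈ l, z ≤ (q : ℝ)) : z ^ l.length ≤ (l.prod : ℝ) := by
  induction l with
  | nil => simp
  | cons a l ih =>
    rw [List.length_cons, List.prod_cons, pow_succ, mul_comm, Nat.cast_mul]
    have h1 := ih (fun q hq => h q (by simp [hq]))
    have h2 := h a (by simp)
    exact mul_le_mul h2 h1 (by positivity) (by linarith)

/-- the number of the prime factors, if all are greater than `H ^ (1/t)` and the number is at most `H ^ M` -/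
theorem omega_le {H n R : ℕ} {t M : ℝ} (hH : 2 ≤ H) (ht : 0 < t) (hn : 1 ≤ n) (hnM : (n : ℝ) ≤ (H : ℝ) ^ M)
    (h : ∀ q : ℕ, q.Prime → q ∣ n → (H : ℝ) ^ (1 / t) ≤ q) (hR : M * t < R + 1) : n.primeFactorsList.length ≤ R := by
  have hHr : (2 : ℝ) ≤ H := by exact_mod_cast hH
  have h1 : ((H : ℝ) ^ (1 / t)) ^ n.primeFactorsList.length ≤ ((n.primeFactorsList.prod : ℕ) : ℝ) := by
    apply list_len_real
    · exact Real.one_le_rpow (by linarith) (by positivity)
    · intro q hq
      exact h q (Nat.prime_of_mem_primeFactorsList hq) (Nat.dvd_of_mem_primeFactorsList hq)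
  rw [Nat.prod_primeFactorsList (by omega)] at h1
  have h2 := h1.trans hnM
  rw [← Real.rpow_natCast, ← Real.rpow_mul (by linarith)] at h2
  have h3 := (Real.rpow_le_rpow_left_iff (by linarith : (1 : ℝ) < H)).1 h2
  have h4 : (n.primeFactorsList.length : ℝ) ≤ M * t := by
    have : 1 / t * (n.primeFactorsList.length : ℝ) = n.primeFactorsList.length / t := by ring
    rw [this, div_le_iff₀ ht] at h3
    exact h3
  have h5 : (n.primeFactorsList.length : ℝ) < ((R + 1 : ℕ) : ℝ) := by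
    push_cast
    linarith
  have h6 : n.primeFactorsList.length < R + 1 := by exact_mod_cast h5
  omega

end Pool.Agent.Q117.CB
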