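import Pool.Agent.Q253.Cov.APd
import Pool.Agent.Q253.Cov.Pig
import Pool.Agent.Q253.Thin.Int
import Pool.Agent.Y882.PY.Eng

/-!
# Almost prime values of `m ^ 3 + k` in all short intervals, for all but few `k`
-/

set_option autoImplicit false

namespace Pool.Agent.Q117.CB

open Finset Filter Polynomial
open Pool.Agent.Y882.PX (ro ro_eq KF ro_le loc)
open Pool.Agent.Y882.PY (goodz engine)
open Pool.Agent.Y843.HS (Pr VV Pr_mem Pr_prime)
open Pool.Agent.Q253.Thin (SysZ VZ_low VZ_nonneg)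

/-- `|n ^ 3 + k|` -/
def cv (k : ℤ) (n : ℕ) : ℕ := ((n : ℤ) ^ 3 + k).natAbs

/-- the roots of `n ^ 3 + k` modulo `q` -/
def Zk (k : ℤ) (q : ℕ) : Finset ℕ := (range q).filter (fun n => q ∣ cv k n)

/-- counting in cells -/
theorem cells (P : ℕ → Prop) [DecidablePred P] (W A H : ℕ) (hW : 0 < W) (hH : 6 * W ≤ H) (B : ℝ) (hB0 : 0 ≤ B)
    (hB : ∀ j, (j + 1) * W ≤ A + H → B ≤ (((Ioc (j * W) (j * W + W)).filter P).card : ℝ)) :
    H / (2 * W) * B ≤ (((Ioc A (A + H)).filter P).card : ℝ) := by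
  obtain ⟨q, hq⟩ : ∃ q, q = H / W := ⟨_, rfl⟩
  have hq6 : 6 ≤ q := by
    rw [hq]
    exact (Nat.le_div_iff_mul_le hW).2 hH
  have hqW : q * W ≤ H := by rw [hq]; exact Nat.div_mul_le_self _ _
  have hHq : H < (q + 1) * W := by
    rw [hq, ← Nat.div_lt_iff_lt_mul hW]
    exact Nat.lt_succ_self _
  obtain ⟨j0, hj0⟩ : ∃ j0, j0 = A / W := ⟨_, rfl⟩
  have hj1 : j0 * W ≤ A := by rw [hj0]; exact Nat.div_mul_le_self _ _
  have hj2 : A < (j0 + 1) * W := by
    rw [hj0, ← Nat.div_lt_iff_lt_mul hW]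
    exact Nat.lt_succ_self _
  have key : ∀ n : ℕ, n + 2 ≤ q → (n : ℝ) * B ≤
      (((Ioc ((j0 + 1) * W) ((j0 + 1 + n) * W)).filter P).card : ℝ) := by
    intro n
    induction n with
    | zero =>
      intro _
      push_cast
      rw [zero_mul]
      positivity
    | succ n ih =>
      intro hn
      have h1 := ih (by omega)
      have h2 := hB (j0 + 1 + n) (by nlinarith)
      have h3 : (Ioc ((j0 + 1) * W) ((j0 + 1 + n) * W)).filter P ∪
          (Ioc ((j0 + 1 + n) * W) ((j0 + 1 + n) * W + W)).filter P ⊆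
          (Ioc ((j0 + 1) * W) ((j0 + 1 + (n + 1)) * W)).filter P := by
        rw [← filter_union]
        apply filter_subset_filter
        intro x hx
        rw [mem_union, mem_Ioc, mem_Ioc] at hx
        rw [mem_Ioc]
        have e1 : (j0 + 1 + (n + 1)) * W = (j0 + 1 + n) * W + W := by ring
        have e2 : (j0 + 1) * W ≤ (j0 + 1 + n) * W := Nat.mul_le_mul_right _ (by omega)
        rw [e1]
        omega
      have h4 : Disjoint ((Ioc ((j0 + 1) * W) ((j0 + 1 + n) * W)).filter P)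
          ((Ioc ((j0 + 1 + n) * W) ((j0 + 1 + n) * W + W)).filter P) := by
        apply disjoint_filter_filter
        rw [disjoint_left]
        intro x hx hx'
        rw [mem_Ioc] at hx hx'
        omega
      have h5 := card_le_card h3
      rw [card_union_of_disjoint h4] at h5
      have h6 : (((Ioc ((j0 + 1) * W) ((j0 + 1 + n) * W)).filter P).card : ℝ) +
          (((Ioc ((j0 + 1 + n) * W) ((j0 + 1 + n) * W + W)).filter P).card : ℝ) ≤
          (((Ioc ((j0 + 1) * W) ((j0 + 1 + (n + 1)) * W)).filter P).card : ℝ) := by exact_mod_cast h5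
      push_cast
      linarith
  have h1 := key (q - 2) (by omega)
  have h2 : (((Ioc ((j0 + 1) * W) ((j0 + 1 + (q - 2)) * W)).filter P).card : ℝ) ≤
      (((Ioc A (A + H)).filter P).card : ℝ) := by
    apply Nat.cast_le.2
    apply card_le_card
    apply filter_subset_filter
    intro x hx
    rw [mem_Ioc] at hx ⊢
    have e1 : (j0 + 1 + (q - 2)) * W + W = j0 * W + q * W := by
      have : j0 + 1 + (q - 2) + 1 = j0 + q := by omega
      calc (j0 + 1 + (q - 2)) * W + W = (j0 + 1 + (q - 2) + 1) * W := by ring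
        _ = _ := by rw [this]; ring
    omega
  refine le_trans ?_ (h1.trans h2)
  apply mul_le_mul_of_nonneg_right _ hB0
  have hWr : (0 : ℝ) < W := by exact_mod_cast hW
  rw [div_le_iff₀ (by positivity)]
  have h3 : ((q - 2 : ℕ) : ℝ) = q - 2 := by
    rw [Nat.cast_sub (by omega)]
    norm_num
  rw [h3]
  have h4 : (H : ℝ) < (q + 1) * W := by exact_mod_cast hHq
  have h5 : (6 : ℝ) ≤ q := by exact_mod_cast hq6
  nlinarith

theorem cube_eval (a n : ℕ) : ((X + C (a : ℤ)) ^ 3 : ℤ[X]).eval (n : ℤ) = ((n + a : ℕ) : ℤ) ^ 3 := by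
  simp

theorem cube_deg (a : ℕ) : ((X + C (a : ℤ)) ^ 3 : ℤ[X]).natDegree = 3 := by
  rw [natDegree_pow, natDegree_X_add_C]

theorem cube_KF (a : ℕ) : KF ((X + C (a : ℤ)) ^ 3 : ℤ[X]) ≤ 3 := by
  unfold KF
  rw [cube_deg, leadingCoeff_pow, leadingCoeff_X_add_C]
  simp

theorem cv_periodic (k : ℤ) (q : ℕ) : Function.Periodic (fun n : ℕ => q ∣ cv k n) q := by
  intro n
  unfold cv
  show (q ∣ (((n + q : ℕ) : ℤ) ^ 3 + k).natAbs) = (q ∣ ((n : ℤ) ^ 3 + k).natAbs)
  rw [← Int.natCast_dvd, ← Int.natCast_dvd]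
  apply propext
  have h2 : (((n + q : ℕ) : ℤ)) ^ 3 + k ≡ (n : ℤ) ^ 3 + k [ZMOD q] := by
    apply Int.ModEq.add_right
    apply Int.ModEq.pow
    push_cast
    exact Int.add_modEq_right
  exact Int.ModEq.dvd_iff h2

theorem ro_cube (a : ℕ) (k : ℤ) (q : ℕ) : ro ((X + C (a : ℤ)) ^ 3) k q = (Zk k q).card := by
  classical
  rw [ro_eq]
  have h1 := Nat.filter_Ico_card_eq_of_periodic a q (fun n => q ∣ cv k n) (cv_periodic k q)
  have h2 := Nat.filter_Ico_card_eq_of_periodic 0 q (fun n => q ∣ cv k n) (cv_periodic k q)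
  rw [zero_add, ← range_eq_Ico] at h2
  unfold Zk
  rw [h2, ← h1]
  apply card_bij (fun n _ => n + a)
  · intro n hn
    rw [mem_filter, mem_range, cube_eval] at hn
    rw [mem_filter, mem_Ico]
    refine ⟨⟨by omega, by omega⟩, ?_⟩
    unfold cv
    exact Int.natCast_dvd.1 hn.2
  · intro x _ y _ h
    omega
  · intro b hb
    rw [mem_filter, mem_Ico] at hb
    refine ⟨b - a, ?_, by omega⟩
    rw [mem_filter, mem_range, cube_eval]
    refine ⟨by omega, ?_⟩
    rw [Nat.sub_add_cancel hb.1.1]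
    exact Int.natCast_dvd.2 hb.2

theorem Zk_sys (k : ℤ) : SysZ 3 (Zk k) where
  card := by
    intro p hp
    rw [← ro_cube 0 k p]
    exact (ro_le _ (by rw [cube_deg]; norm_num) k p hp).trans (cube_KF 0)
  loc := by
    intro p hp
    have h1 : (Zk k p) ⊂ range p := by
      unfold Zk
      refine ⟨filter_subset _ _, ?_⟩
      intro h2
      have h3 := (mem_filter.1 (h2 (mem_range.2 (hp.pos)))).2
      have h4 := (mem_filter.1 (h2 (mem_range.2 (hp.one_lt)))).2
      unfold cv at h3 h4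
      rw [← Int.natCast_dvd] at h3 h4
      push_cast at h3 h4
      have h5 := dvd_sub h4 h3
      have h6 : (1 : ℤ) ^ 3 + k - (0 ^ 3 + k) = 1 := by ring
      norm_num at h5
      have h7 : p ∣ 1 := by exact_mod_cast h5
      exact hp.one_lt.ne' (Nat.dvd_one.1 h7)
    have := card_lt_card h1
    rwa [card_range] at this
  lt := fun _ _ _ hc => mem_range.1 (mem_filter.1 hc).1

theorem loc_cube (a : ℕ) (k : ℤ) (Z : ℕ) : loc ((X + C (a : ℤ)) ^ 3) k Z = VV (Zk k) 0 Z := by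
  unfold loc VV Pr
  have h : (Icc 1 Z).filter Nat.Prime = (Ioc 0 Z).filter Nat.Prime := by
    ext p
    simp only [mem_filter, mem_Icc, mem_Ioc]
    constructor
    · rintro ⟨⟨h1, h2⟩, h3⟩
      exact ⟨⟨by omega, h2⟩, h3⟩
    · rintro ⟨⟨h1, h2⟩, h3⟩
      exact ⟨⟨by omega, h2⟩, h3⟩
  rw [h]
  apply prod_congr rfl
  intro p _
  rw [ro_cube]

end Pool.Agent.Q117.CB
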