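import Pool.Agent.Q117.CB.Base

/-!
# Almost prime values of `m ^ 3 + k` in all short intervals, for all but few `k`: the count
-/

set_option autoImplicit false

namespace Pool.Agent.Q117.CB

open Finset Filter Polynomial
open Pool.Agent.Y882.PX (ro ro_eq KF ro_le loc)
open Pool.Agent.Y882.PY (goodz engine)
open Pool.Agent.Y843.HS (Pr VV Pr_mem Pr_prime)
open Pool.Agent.Q253.Thin (SysZ VZ_low VZ_nonneg)

theorem list_len (B r : ℕ) (l : List ℕ) (h : ∀ q ∈ l, B < q ^ (r + 1)) (hl : l.prod ≤ B) : l.length ≤ r := by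
  have key : ∀ l : List ℕ, (∀ q ∈ l, B < q ^ (r + 1)) → (B + 1) ^ l.length ≤ l.prod ^ (r + 1) := by
    intro l
    induction l with
    | nil => simp
    | cons a l ih =>
      intro h
      rw [List.length_cons, List.prod_cons, pow_succ, mul_pow, mul_comm]
      exact Nat.mul_le_mul (h a (by simp)) (ih (fun q hq => h q (by simp [hq])))
  by_contra hcon
  push Not at hcon
  have h1 := key l h
  have h2 : (B + 1) ^ (r + 1) ≤ (B + 1) ^ l.length := Nat.pow_le_pow_right (by omega) hcon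
  have h3 : l.prod ^ (r + 1) ≤ B ^ (r + 1) := Nat.pow_le_pow_left hl _
  have h4 : B ^ (r + 1) < (B + 1) ^ (r + 1) := Nat.pow_lt_pow_left (by omega) (by omega)
  omega

theorem len_le {n B r : ℕ} (hn : 1 ≤ n) (hnB : n ≤ B) (h : ∀ q : ℕ, q.Prime → q ∣ n → B < q ^ (r + 1)) :
    n.primeFactorsList.length ≤ r := by
  apply list_len B r
  · intro q hq
    exact h q (Nat.prime_of_mem_primeFactorsList hq) (Nat.dvd_of_mem_primeFactorsList hq)
  · rw [Nat.prod_primeFactorsList (by omega)]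
    exact hnB

/-- the values: at most three prime factors, all greater than `X ^ (3/4)` -/
def Pg (k : ℤ) (X n : ℕ) : Prop :=
  2 ≤ cv k n ∧ (cv k n).primeFactorsList.length ≤ 3 ∧ ∀ q : ℕ, q.Prime → q ∣ cv k n → (X : ℝ) ^ (3 / 4 : ℝ) < q

open Classical in
/-- the `m` of `(A, A + H]` with these values -/
noncomputable def Gd (k : ℤ) (X A H : ℕ) : Finset ℕ := (Ioc A (A + H)).filter (fun n => Pg k X n)

open Classical in
theorem family (δ ε : ℝ) (hδ : 0 < δ) (hδ1 : δ ≤ 1) (hε : 0 < ε) : ∃ c : ℝ, 0 < c ∧ ∃ X₀ : ℕ, ∀ X : ℕ, X₀ ≤ X →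
    ∃ E : Finset ℤ, (E.card : ℝ) ≤ (X : ℝ) ^ (4 - 2 * δ + ε) ∧
    ∀ k : ℤ, |k| ≤ (X : ℤ) ^ 3 → k ∉ E → ∀ A H : ℕ, A + H ≤ X → (X : ℝ) ^ δ ≤ H →
      c * (H * VV (Zk k) 0 H) ≤ ((Gd k X A H).card : ℝ) := by
  obtain ⟨η, hη⟩ : ∃ η, η = min (ε / 16) (1 / 100) := ⟨_, rfl⟩
  have hη0 : 0 < η := by rw [hη]; positivity
  have hη1 : η ≤ ε / 16 := by rw [hη]; exact min_le_left _ _
  have hη2 : η ≤ 1 / 100 := by rw [hη]; exact min_le_right _ _
  obtain ⟨c0, hc0, Y0, HE⟩ := engine 3 (δ / 4) (1 / 4 + η) 1 η (by positivity) (by positivity) (by linarith)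
    (by norm_num) le_rfl hη0
  have ev1 : ∀ᶠ X : ℕ in atTop, (16 : ℝ) ≤ (X : ℝ) ^ (δ / 4) :=
    ((tendsto_rpow_atTop (by linarith)).comp tendsto_natCast_atTop_atTop).eventually_ge_atTop _
  have ev2 : ∀ᶠ X : ℕ in atTop, (561 : ℝ) ≤ (X : ℝ) ^ η :=
    ((tendsto_rpow_atTop hη0).comp tendsto_natCast_atTop_atTop).eventually_ge_atTop _
  obtain ⟨X1, hX1⟩ := eventually_atTop.1 (ev1.and ev2)
  refine ⟨c0 / 2, by positivity, max (max Y0 X1) 2, ?_⟩
  intro X hX
  have hXY : Y0 ≤ X := ((le_max_left _ _).trans (le_max_left _ _)).trans hX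
  obtain ⟨e1, e2⟩ := hX1 X (((le_max_right _ _).trans (le_max_left _ _)).trans hX)
  have hX2 : 2 ≤ X := (le_max_right _ _).trans hX
  have hXr : (2 : ℝ) ≤ X := by exact_mod_cast hX2
  have hX0 : (0 : ℝ) < X := by linarith
  have hX1r : (1 : ℝ) ≤ X := by linarith
  have hpow : ∀ s : ℝ, ((X ^ 3 : ℕ) : ℝ) ^ s = (X : ℝ) ^ (3 * s) := by
    intro s
    push_cast
    rw [← Real.rpow_natCast, ← Real.rpow_mul hX0.le]
    norm_num
  -- the cells
  obtain ⟨W, hW⟩ : ∃ W, W = ⌊(X : ℝ) ^ δ / 8⌋₊ := ⟨_, rfl⟩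
  have hW1 : (W : ℝ) ≤ (X : ℝ) ^ δ / 8 := by rw [hW]; exact Nat.floor_le (by positivity)
  have hXd : (X : ℝ) ^ δ = (X : ℝ) ^ (δ / 4) * (X : ℝ) ^ (3 * (δ / 4)) := by
    rw [← Real.rpow_add hX0]
    congr 1
    ring
  have hX34 : (1 : ℝ) ≤ (X : ℝ) ^ (3 * (δ / 4)) := Real.one_le_rpow hX1r (by positivity)
  have hXd16 : 16 * (X : ℝ) ^ (3 * (δ / 4)) ≤ (X : ℝ) ^ δ := by
    rw [hXd]
    exact mul_le_mul_of_nonneg_right e1 (by positivity)
  have hW2 : (X : ℝ) ^ δ / 16 ≤ W := by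
    have h1 := Nat.lt_floor_add_one ((X : ℝ) ^ δ / 8)
    rw [← hW] at h1
    linarith
  have hW3 : ((X ^ 3 : ℕ) : ℝ) ^ (δ / 4) ≤ W := by
    rw [hpow]
    linarith
  have hWp : (0 : ℝ) < W := by linarith
  have hW0 : 0 < W := by exact_mod_cast hWp
  -- the exceptional sets
  obtain ⟨Ej, hEj⟩ : ∃ Ej : ℕ → Finset ℤ, Ej = fun j => (Icc (-((X ^ 3 : ℕ) : ℤ)) ((X ^ 3 : ℕ) : ℤ)).filter (fun k =>
      ((goodz ((Polynomial.X + C ((j * W : ℕ) : ℤ)) ^ 3) k W (((X ^ 3 : ℕ) : ℝ) ^ (1 / 4 + η))).card : ℝ) <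
        c0 * W * loc ((Polynomial.X + C ((j * W : ℕ) : ℤ)) ^ 3) k W) := ⟨_, rfl⟩
  have hEc : ∀ j, ((Ej j).card : ℝ) ≤ 33 * (X : ℝ) ^ (3 - δ + 15 * η) := by
    intro j
    rw [hEj]
    refine (HE (X ^ 3) (by nlinarith [Nat.pow_le_pow_right (show 0 < X by omega) (show 1 ≤ 3 by norm_num)])
      ((Polynomial.X + C ((j * W : ℕ) : ℤ)) ^ 3) (X ^ 3) W W
      (by rw [cube_deg]; norm_num) (cube_KF _) (by rw [Real.rpow_one]) hW3 hW3).trans ?_
    rw [hpow, hpow, hpow]
    have hmax : max (2 * (1 : ℝ) / 3) (1 / 4 + η) = 2 / 3 := by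
      rw [max_eq_left (by linarith)]
      norm_num
    rw [hmax]
    have h2 : (X : ℝ) ^ (3 * (2 / 3 + η)) ≤ (X : ℝ) ^ (3 - δ + 15 * η) :=
      Real.rpow_le_rpow_of_exponent_le hX1r (by linarith)
    have h3 : (((X ^ 3 : ℕ) : ℝ) + (X : ℝ) ^ (3 * (4 * (1 / 4 + η)))) / W * (X : ℝ) ^ (3 * η) ≤
        32 * (X : ℝ) ^ (3 - δ + 15 * η) := by
      have h4 : ((X ^ 3 : ℕ) : ℝ) ≤ (X : ℝ) ^ (3 * (4 * (1 / 4 + η))) := by
        push_cast
        rw [← Real.rpow_natCast]
        apply Real.rpow_le_rpow_of_exponent_le hX1r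
        push_cast
        linarith
      have h5 : (((X ^ 3 : ℕ) : ℝ) + (X : ℝ) ^ (3 * (4 * (1 / 4 + η)))) / W ≤
          2 * (X : ℝ) ^ (3 * (4 * (1 / 4 + η))) / ((X : ℝ) ^ δ / 16) := by
        apply div_le_div₀ (by positivity) (by linarith) (by positivity) hW2
      calc _ ≤ 2 * (X : ℝ) ^ (3 * (4 * (1 / 4 + η))) / ((X : ℝ) ^ δ / 16) * (X : ℝ) ^ (3 * η) :=
            mul_le_mul_of_nonneg_right h5 (by positivity)
        _ = 32 * ((X : ℝ) ^ (3 * (4 * (1 / 4 + η))) * (X : ℝ) ^ (3 * η) / (X : ℝ) ^ δ) := by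
            field_simp
            norm_num
        _ = 32 * (X : ℝ) ^ (3 - δ + 15 * η) := by
            rw [← Real.rpow_add hX0, ← Real.rpow_sub hX0]
            congr 2
            ring
    linarith
  refine ⟨(range (X / W + 1)).biUnion Ej, ?_, ?_⟩
  · have h1 : (((range (X / W + 1)).biUnion Ej).card : ℝ) ≤ ∑ j ∈ range (X / W + 1), ((Ej j).card : ℝ) := by
      exact_mod_cast card_biUnion_le
    have h2 : ∑ j ∈ range (X / W + 1), ((Ej j).card : ℝ) ≤
        ((X / W + 1 : ℕ) : ℝ) * (33 * (X : ℝ) ^ (3 - δ + 15 * η)) := by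
      refine (sum_le_sum fun j _ => hEc j).trans ?_
      rw [sum_const, nsmul_eq_mul, card_range]
    have h3 : ((X / W + 1 : ℕ) : ℝ) ≤ 17 * (X : ℝ) ^ (1 - δ) := by
      have h4 : ((X / W : ℕ) : ℝ) ≤ (X : ℝ) / W := Nat.cast_div_le
      have h5 : (X : ℝ) / W ≤ 16 * (X : ℝ) ^ (1 - δ) := by
        calc (X : ℝ) / W ≤ X / ((X : ℝ) ^ δ / 16) := div_le_div_of_nonneg_left hX0.le (by positivity) hW2
          _ = 16 * (X / (X : ℝ) ^ δ) := by field_simp
          _ = 16 * (X : ℝ) ^ (1 - δ) := by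
              rw [Real.rpow_sub hX0, Real.rpow_one]
      have h6 : (1 : ℝ) ≤ (X : ℝ) ^ (1 - δ) := Real.one_le_rpow hX1r (by linarith)
      push_cast
      linarith
    calc (((range (X / W + 1)).biUnion Ej).card : ℝ) ≤ ((X / W + 1 : ℕ) : ℝ) * (33 * (X : ℝ) ^ (3 - δ + 15 * η)) :=
          h1.trans h2
      _ ≤ 17 * (X : ℝ) ^ (1 - δ) * (33 * (X : ℝ) ^ (3 - δ + 15 * η)) :=
          mul_le_mul_of_nonneg_right h3 (by positivity)
      _ = 561 * ((X : ℝ) ^ (1 - δ) * (X : ℝ) ^ (3 - δ + 15 * η)) := by ring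
      _ ≤ (X : ℝ) ^ η * ((X : ℝ) ^ (1 - δ) * (X : ℝ) ^ (3 - δ + 15 * η)) :=
          mul_le_mul_of_nonneg_right e2 (by positivity)
      _ = (X : ℝ) ^ (4 - 2 * δ + 16 * η) := by
          rw [← Real.rpow_add hX0, ← Real.rpow_add hX0]
          congr 1
          ring
      _ ≤ _ := Real.rpow_le_rpow_of_exponent_le hX1r (by linarith)
  · intro k hk hkE A H hAH hH
    have hV0 : 0 ≤ VV (Zk k) 0 W := VZ_nonneg (Zk_sys k) _ _
    have hWH : 6 * W ≤ H := by
      have : (6 : ℝ) * W ≤ H := by linarith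
      exact_mod_cast this
    have hcell : ∀ j, (j + 1) * W ≤ A + H → c0 * W * VV (Zk k) 0 W ≤
        (((Ioc (j * W) (j * W + W)).filter (fun n => Pg k X n)).card : ℝ) := by
      intro j hj
      have hjX : (j + 1) * W ≤ X := hj.trans hAH
      have hjr : j < X / W + 1 := by
        have : j + 1 ≤ X / W := (Nat.le_div_iff_mul_le hW0).2 hjX
        omega
      have h1 : k ∉ Ej j := fun h => hkE (mem_biUnion.2 ⟨j, mem_range.2 hjr, h⟩)
      rw [hEj, mem_filter, not_and, not_lt] at h1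
      have h2 := abs_le.1 hk
      have h3 := h1 (by
        rw [mem_Icc]
        push_cast
        exact ⟨h2.1, h2.2⟩)
      rw [loc_cube] at h3
      refine h3.trans ?_
      apply Nat.cast_le.2
      apply card_le_card_of_injOn (fun n => n + j * W)
      · intro n hn
        have hn' := mem_coe.1 hn
        unfold goodz at hn'
        rw [mem_filter, mem_Icc, cube_eval] at hn'
        obtain ⟨⟨n1, n2⟩, n3, n4⟩ := hn'
        rw [mem_coe, mem_filter, mem_Ioc]
        refine ⟨⟨by show j * W < n + j * W; omega, by show n + j * W ≤ j * W + W; omega⟩, ?_⟩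
        show Pg k X (n + j * W)
        have hnX : n + j * W ≤ X := by nlinarith
        have g1 : 2 ≤ cv k (n + j * W) := by
          unfold cv
          have h4 : (1 : ℤ) < ((((n + j * W : ℕ) : ℤ) ^ 3 + k).natAbs : ℤ) := by
            rw [Int.natCast_natAbs]
            exact n3
          exact_mod_cast h4
        have g2 : ∀ q : ℕ, q.Prime → q ∣ cv k (n + j * W) → (X : ℝ) ^ (3 / 4 + 3 * η) ≤ q := by
          intro q hq hqd
          have h4 := n4 q hq (by
            rw [Int.natCast_dvd]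
            exact hqd)
          rw [hpow] at h4
          convert h4 using 2
          ring
        have g3 : cv k (n + j * W) ≤ 2 * X ^ 3 := by
          unfold cv
          have h6 : |((n + j * W : ℕ) : ℤ) ^ 3 + k| ≤ 2 * (X : ℤ) ^ 3 := by
            have h7 : ((n + j * W : ℕ) : ℤ) ^ 3 ≤ (X : ℤ) ^ 3 := by
              apply pow_le_pow_left₀ (by positivity)
              exact_mod_cast hnX
            calc |((n + j * W : ℕ) : ℤ) ^ 3 + k| ≤ |((n + j * W : ℕ) : ℤ) ^ 3| + |k| := abs_add_le _ _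
              _ ≤ (X : ℤ) ^ 3 + (X : ℤ) ^ 3 := by
                  rw [abs_of_nonneg (by positivity : (0 : ℤ) ≤ ((n + j * W : ℕ) : ℤ) ^ 3)]
                  linarith
              _ = _ := by ring
          have h7 : ((((n + j * W : ℕ) : ℤ) ^ 3 + k).natAbs : ℤ) ≤ ((2 * X ^ 3 : ℕ) : ℤ) := by
            rw [Int.natCast_natAbs]
            push_cast
            push_cast at h6
            exact h6
          exact_mod_cast h7
        refine ⟨g1, ?_, ?_⟩
        · apply len_le (B := 2 * X ^ 3) (by omega) g3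
          intro q hq hqd
          have h4 := g2 q hq hqd
          have h5 : (2 * X ^ 3 : ℝ) < (q : ℝ) ^ (3 + 1) := by
            calc (2 * X ^ 3 : ℝ) < 561 * (X : ℝ) ^ 3 := by
                  have : 0 < (X : ℝ) ^ 3 := by positivity
                  linarith
              _ ≤ (X : ℝ) ^ η * (X : ℝ) ^ 3 := mul_le_mul_of_nonneg_right e2 (by positivity)
              _ = (X : ℝ) ^ (3 + η) := by
                  rw [← Real.rpow_natCast, ← Real.rpow_add hX0]
                  congr 1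
                  push_cast
                  ring
              _ ≤ (X : ℝ) ^ ((3 / 4 + 3 * η) * 4) := Real.rpow_le_rpow_of_exponent_le hX1r (by linarith)
              _ = ((X : ℝ) ^ (3 / 4 + 3 * η)) ^ (3 + 1) := by
                  rw [Real.rpow_mul hX0.le, ← Real.rpow_natCast]
                  norm_num
              _ ≤ _ := pow_le_pow_left₀ (by positivity) h4 _
          exact_mod_cast h5
        · intro q hq hqd
          refine lt_of_lt_of_le ?_ (g2 q hq hqd)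
          exact Real.rpow_lt_rpow_of_exponent_lt (by linarith) (by linarith)
      · intro x _ y _ hxy
        simp only at hxy
        omega
    have h1 := cells (fun n => Pg k X n) W A H hW0 hWH (c0 * W * VV (Zk k) 0 W) (by positivity) hcell
    have h2 : VV (Zk k) 0 H ≤ VV (Zk k) 0 W := by
      rw [← Pool.Agent.Y843.HS.VV_split (Zk k) (Nat.zero_le W) (by omega : W ≤ H)]
      exact mul_le_of_le_one_right hV0 (Pool.Agent.Q253.Thin.VZ_le_one (Zk_sys k) _ _)
    unfold Gd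
    refine le_trans ?_ h1
    have e : (H : ℝ) / (2 * W) * (c0 * W * VV (Zk k) 0 W) = c0 / 2 * (H * VV (Zk k) 0 W) := by
      field_simp
    rw [e]
    apply mul_le_mul_of_nonneg_left _ (by positivity)
    exact mul_le_mul_of_nonneg_left h2 (Nat.cast_nonneg _)

end Pool.Agent.Q117.CB
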