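import Pool.Agent.Q117.CB.Master
import Pool.Agent.Q253.Cov.PolyW

/-!
# The roots of a polynomial modulo primes as a sieve system
-/

set_option autoImplicit false

namespace Pool.Agent.Q117.CB

open Finset Filter Polynomial
open Pool.Agent.Q253.Thin (SysZ)
open Pool.Agent.Q253.Cov (Zf Zf_mem)

theorem sys_poly (P : ℤ[X]) (r : ℕ) (hr : P.natDegree ≤ r) (h : ∀ p : ℕ, p.Prime → ∃ n : ℤ, ¬ (p : ℤ) ∣ P.eval n) :
    SysZ r (Zf P) where
  card := by
    classical
    intro p hp
    have : Fact p.Prime := ⟨hp⟩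
    set f : (ZMod p)[X] := P.map (Int.castRingHom (ZMod p)) with hf
    have hev : ∀ n : ℤ, f.eval (n : ZMod p) = ((P.eval n : ℤ) : ZMod p) := by
      intro n
      rw [hf]
      simp [eval_map, eval₂_at_intCast]
    have hf0 : f ≠ 0 := by
      obtain ⟨n, hn⟩ := h p hp
      intro h0
      apply hn
      rw [← ZMod.intCast_zmod_eq_zero_iff_dvd, ← hev, h0, eval_zero]
    have h1 : (Zf P p).card ≤ f.roots.toFinset.card := by
      apply card_le_card_of_injOn (fun a : ℕ => (a : ZMod p))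
      · intro a ha
        have ha' := Finset.mem_coe.1 ha
        unfold Zf at ha'
        rw [mem_filter] at ha'
        rw [mem_coe, Multiset.mem_toFinset, mem_roots hf0, IsRoot.def]
        have h2 := hev (a : ℤ)
        rw [Int.cast_natCast] at h2
        rw [h2, ZMod.intCast_zmod_eq_zero_iff_dvd]
        exact ha'.2
      · intro x hx y hy hxy
        have hx' := Finset.mem_coe.1 hx
        have hy' := Finset.mem_coe.1 hy
        unfold Zf at hx' hy'
        rw [mem_filter, mem_range] at hx' hy'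
        have h2 := (ZMod.natCast_eq_natCast_iff' x y p).1 hxy
        rwa [Nat.mod_eq_of_lt hx'.1, Nat.mod_eq_of_lt hy'.1] at h2
    calc (Zf P p).card ≤ f.roots.toFinset.card := h1
      _ ≤ Multiset.card f.roots := Multiset.toFinset_card_le _
      _ ≤ f.natDegree := card_roots' f
      _ ≤ P.natDegree := natDegree_map_le
      _ ≤ r := hr
  loc := by
    intro p hp
    obtain ⟨m, hm⟩ := h p hp
    have hp0 : (0 : ℤ) < p := by exact_mod_cast hp.pos
    have h1 : (Zf P p) ⊂ range p := by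
      unfold Zf
      refine ⟨filter_subset _ _, ?_⟩
      intro h2
      have h3 : ((m % p).toNat) ∈ range p := by
        rw [mem_range]
        have := Int.emod_lt_of_pos m hp0
        have := Int.emod_nonneg m hp0.ne'
        omega
      have hi := (mem_filter.1 (h2 h3)).2
      rw [Int.toNat_of_nonneg (Int.emod_nonneg m hp0.ne')] at hi
      apply hm
      have h4 : (p : ℤ) ∣ P.eval m - P.eval (m % p) := by
        refine dvd_trans ?_ (P.sub_dvd_eval_sub m (m % p))
        exact Int.dvd_self_sub_emod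
      have := dvd_add h4 hi
      rwa [sub_add_cancel] at this
    have := card_lt_card h1
    rwa [card_range] at this
  lt := fun _ _ _ hc => mem_range.1 (mem_filter.1 hc).1

/-- a polynomial is at most a constant times a power -/
theorem eval_bound (P : ℤ[X]) : ∃ K : ℕ, ∀ n : ℕ, (P.eval (n : ℤ)).natAbs ≤ K * (n + 1) ^ P.natDegree := by
  refine ⟨∑ i ∈ range (P.natDegree + 1), (P.coeff i).natAbs, fun n => ?_⟩
  rw [eval_eq_sum_range, sum_mul]
  refine (Int.natAbs_sum_le _ _).trans ?_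
  apply sum_le_sum
  intro i hi
  rw [Int.natAbs_mul]
  apply Nat.mul_le_mul_left
  rw [Int.natAbs_pow, Int.natAbs_natCast]
  calc n ^ i ≤ (n + 1) ^ i := Nat.pow_le_pow_left (by omega) _
    _ ≤ _ := Nat.pow_le_pow_right (by omega) (by rw [mem_range] at hi; omega)

/-- the values at the `n ≤ K N` -/
theorem eval_bound2 (P : ℤ[X]) (K : ℕ) : ∃ N₀ : ℕ, ∀ N : ℕ, N₀ ≤ N → ∀ n : ℕ, n ≤ K * N →
    (P.eval (n : ℤ)).natAbs ≤ N ^ (P.natDegree + 1) := by
  obtain ⟨K₁, hK₁⟩ := eval_bound P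
  refine ⟨K₁ * (K + 1) ^ P.natDegree + 1, fun N hN n hn => (hK₁ n).trans ?_⟩
  calc K₁ * (n + 1) ^ P.natDegree ≤ K₁ * ((K + 1) * N) ^ P.natDegree := by
        apply Nat.mul_le_mul_left
        apply Nat.pow_le_pow_left
        have : 1 ≤ N := by omega
        nlinarith
    _ = K₁ * (K + 1) ^ P.natDegree * N ^ P.natDegree := by rw [mul_pow]; ring
    _ ≤ N * N ^ P.natDegree := Nat.mul_le_mul_right _ (by omega)
    _ = N ^ (P.natDegree + 1) := by ring

/-- a polynomial with positive leading coefficient grows at least linearly -/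
theorem eval_lower (G : ℤ[X]) (hd : 1 ≤ G.natDegree) (hG : 0 < G.leadingCoeff) :
    ∃ K N₀ : ℕ, ∀ N : ℕ, N₀ ≤ N → ∀ n : ℕ, G.eval (n : ℤ) < N → n ≤ K * N := by
  obtain ⟨g, hg⟩ : ∃ g : ℝ[X], g = G.map (Int.castRingHom ℝ) := ⟨_, rfl⟩
  have hinj : Function.Injective (Int.castRingHom ℝ) := Int.cast_injective
  have hgd : g.natDegree = G.natDegree := by rw [hg, natDegree_map_eq_of_injective hinj]
  have hgl : 0 < g.leadingCoeff := by
    rw [hg, leadingCoeff_map_of_injective hinj]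
    simpa using hG
  have hg0 : g ≠ 0 := by
    intro h
    rw [h, natDegree_zero] at hgd
    omega
  have hdeg : (0 : WithBot ℕ) < g.degree := natDegree_pos_iff_degree_pos.1 (by omega)
  have h1 : (fun x : ℝ => eval x (X : ℝ[X])) =O[atTop] fun x => eval x g := by
    apply Polynomial.isBigO_atTop_of_degree_le
    rw [degree_X]
    exact Nat.WithBot.one_le_iff_zero_lt.2 hdeg
  obtain ⟨c, hc0, hc⟩ := h1.exists_pos
  rw [Asymptotics.isBigOWith_iff] at hc
  have h2 := (g.tendsto_atTop_of_leadingCoeff_nonneg hdeg hgl.le).eventually_ge_atTop 0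
  obtain ⟨x₀, hx₀⟩ := eventually_atTop.1 (hc.and h2)
  refine ⟨max ⌈c⌉₊ (⌈x₀⌉₊ + 1), 1, fun N hN n hn => ?_⟩
  by_cases hx : x₀ ≤ (n : ℝ)
  · obtain ⟨h3, h4⟩ := hx₀ n hx
    rw [eval_X, Real.norm_of_nonneg (Nat.cast_nonneg _), Real.norm_of_nonneg h4] at h3
    have h5 : eval (n : ℝ) g = ((G.eval (n : ℤ) : ℤ) : ℝ) := by
      rw [hg, eval_map, ← Int.cast_natCast, ← eq_intCast (Int.castRingHom ℝ), eval₂_at_apply]
      simp
    have h6 : eval (n : ℝ) g ≤ N := by
      rw [h5]
      exact_mod_cast hn.le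
    have h7 : (n : ℝ) ≤ c * N := h3.trans (mul_le_mul_of_nonneg_left h6 hc0.le)
    have h8 : (n : ℝ) ≤ ((max ⌈c⌉₊ (⌈x₀⌉₊ + 1) * N : ℕ) : ℝ) := by
      push_cast
      refine h7.trans ?_
      apply mul_le_mul_of_nonneg_right _ (Nat.cast_nonneg _)
      exact (Nat.le_ceil c).trans (le_max_left _ _)
    exact_mod_cast h8
  · push Not at hx
    have h3 : (n : ℝ) ≤ ⌈x₀⌉₊ := hx.le.trans (Nat.le_ceil _)
    have h4 : n ≤ ⌈x₀⌉₊ := by exact_mod_cast h3
    calc n ≤ (⌈x₀⌉₊ + 1) * 1 := by omega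
      _ ≤ _ := Nat.mul_le_mul (le_max_right _ _) hN

end Pool.Agent.Q117.CB
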